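import Pool.Agent.Helper993.CS.S10

open Filter Topology

namespace Pool.Agent.Results.MP_eeb8df_ag.NotDense

open Pool.Agent.Helper993.CS

/-- Let `N ≥ 3` and let `F` be a family of dominant rational maps of `ℙ^N` depending rationally on
`T = (T_1,…,T_k)`: forms `F_0,…,F_N` over `ℂ(T)` of one common degree, without common factor and
without algebraic relation.  Then the dynamical degree `δ` of the generic member exists, so does the
one of every dominant member, and for every `ε > 0` the set of the `t ∈ ℂ^k` at which all the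
coefficients are defined and the specialised map `f_t` is dominant with `δ(f_t) ≤ δ - ε` lies in the
zero set of a nonzero polynomial `h`, that is, it is not Zariski dense. -/
theorem result (N k : ℕ) (hN : 3 ≤ N) (d : ℕ)
    (F : Fin (N + 1) → MvPolynomial (Fin (N + 1)) (FractionRing (MvPolynomial (Fin k) ℂ)))
    (hF : ∀ i, (F i).IsHomogeneous d)
    (_hcop : ∀ q : MvPolynomial (Fin (N + 1)) (FractionRing (MvPolynomial (Fin k) ℂ)),
      (∀ i, q ∣ F i) → IsUnit q)
    (hdom : AlgebraicIndependent (FractionRing (MvPolynomial (Fin k) ℂ)) F) :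
    ∃ δ : ℝ, IsDynDeg F δ ∧
      (∀ (t : Fin k → ℂ) (g : Fin (N + 1) → MvPolynomial (Fin (N + 1)) ℂ),
        IsSpecialisation F t g → AlgebraicIndependent ℂ g → ∃ δt, IsDynDeg g δt) ∧
      ∀ ε : ℝ, 0 < ε → ∃ h : MvPolynomial (Fin k) ℂ, h ≠ 0 ∧
        ∀ (t : Fin k → ℂ) (g : Fin (N + 1) → MvPolynomial (Fin (N + 1)) ℂ) (δt : ℝ),
          IsSpecialisation F t g → AlgebraicIndependent ℂ g → IsDynDeg g δt → δt ≤ δ - ε →
            MvPolynomial.eval t h = 0 := by
  obtain ⟨δ, h1, h2, h3⟩ := families N k (by omega) d F hF hdom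
  exact ⟨δ, h1, fun t g hg hgd => h2 g (by
    obtain ⟨P, H, e, _, _, _, he, _⟩ := hg
    exact ⟨e, he⟩) hgd, h3⟩

end Pool.Agent.Results.MP_eeb8df_ag.NotDense
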